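import Pool.Agent.H37.CNK.Stmts

/-!
# Row `QSM` of the board `cnk`: the quotient cover by a normal subgroup
-/

set_option autoImplicit false

namespace Pool.CND

theorem qsm_thm (hBAS : S_BAS) (hQU1 : S_QU1) (hFXP : S_FXP) (_hRST : S_RST) (hHER : S_HER)
    (hART : S_ART) : S_QSM := by
  intro p k L G _ _ _ _ _ _ ρ t P M _ hP
  obtain ⟨-, hfix, -, -, hinj⟩ := hBAS p k L G ρ t P hP
  obtain ⟨E, ρ', t', hE, ht', hcomp, hcov⟩ := hQU1 k L G ρ t M hP.cov
  obtain ⟨F, hF, Q, hQ⟩ := hFXP k L G P ρ M hinj fun n _ => hfix n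
  have hEF : E = F := by
    ext v
    rw [hE, hF]
  subst hEF
  have hMpos : (0 : ℤ) < Nat.card M := by exact_mod_cast Nat.card_pos
  have ht0 : t' ≠ 0 := by
    rintro rfl
    refine hP.cov.trans ?_
    rw [← ht']
    exact isAlgebraic_zero
  refine ⟨E, ρ', t', Q, hE, ht', hcomp, ⟨hP.pr, hP.ch, ?_, hcov, ?_⟩, hQ, ?_⟩
  · obtain ⟨n, hn⟩ := hP.cd
    have hd : Nat.card (G ⧸ M) ∣ p ^ n := by
      rw [← hn]
      exact Subgroup.card_quotient_dvd_card M
    obtain ⟨m, -, hm⟩ := (Nat.dvd_prime_pow hP.pr).1 hd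
    exact ⟨m, hm⟩
  · have h1 := hQ t' ht0
    rw [ht'] at h1
    have h2 := hP.inf
    by_contra h3
    push Not at h3
    have h4 := mul_nonneg hMpos.le h3
    omega
  · intro g hg
    refine hHER k L G P ρ M E Q g (ρ' (g : G ⧸ M)) hinj (fun n _ => hfix n) hE hQ hg (hfix g)
      (fun x => hcomp g x) ?_ ?_
    · intro x hx
      have hx' : ρ' (g : G ⧸ M) x ≠ 0 := by
        rw [Ne, map_eq_zero_iff _ (ρ' (g : G ⧸ M)).injective]
        exact hx
      have h1 := hQ _ hx'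
      have hxL : (x : L) ≠ 0 := by
        intro h0
        exact hx (Subtype.ext h0)
      rw [hcomp g x, hfix g (x : L) hxL, ← hQ x hx] at h1
      exact mul_left_cancel₀ hMpos.ne' h1
    · intro h1
      refine hg (hART k L G ρ M g hinj fun x hx => ?_)
      have h2 := hcomp g ⟨x, (hE x).2 hx⟩
      rw [h1] at h2
      exact h2.symm

end Pool.CND
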